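import Mathlib
import Pool.Agent.Q35.SM.Stm

/-!
Project LO (MP_1acd66_nt): lower bounds `B (log B) ^ (s - 1)` for the number of points of bounded
anticanonical height on dense open subsets of complete intersections of `k` divisors of type
`(1, ..., 1)` in products of `s` projective spaces over number fields.
-/

set_option autoImplicit false

namespace Pool.Agent.Q35.LO

open Finset Function MvPolynomial
open Pool.Agent.Q35.MM (bx dg Pts)
open Pool.Agent.Q35.SM (Cof Vs Var Pol ev pv MH)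

section

variable {K : Type} [Field K] {ι : Type} [Fintype ι] [DecidableEq ι] {n : ι → ℕ}

/-- The coefficients of the linear forms in the `j`-th vector. -/
def lf {A : Type} [CommRing A] [Algebra K A] {k : ℕ} (c : Fin k → Cof K n) (x : Vs A n) (j : ι)
    (t : Fin k) (a : Fin (n j + 1)) : A :=
  ev A (c t) (update x j (Pi.single a 1))

/-- A minor of the matrix `lf`. -/
def mnr {A : Type} [CommRing A] [Algebra K A] {k : ℕ} (c : Fin k → Cof K n) (x : Vs A n) (j : ι)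
    (J : Fin k → Fin (n j + 1)) : A :=
  (Matrix.of fun t t' => lf c x j t (J t')).det

/-- The fibre over `x l`, `l ≠ j`. -/
def VV {k : ℕ} (c : Fin k → Cof K n) (x : Vs K n) (j : ι) : Submodule K (Fin (n j + 1) → K) where
  carrier := {y | ∀ t, ∑ a, lf c x j t a * y a = 0}
  add_mem' := by
    intro y z hy hz t
    have h1 := hy t
    have h2 := hz t
    simp only [Pi.add_apply, mul_add, Finset.sum_add_distrib]
    rw [h1, h2, add_zero]
  zero_mem' := by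
    intro t
    simp
  smul_mem' := by
    intro m y hy t
    have h1 := hy t
    have h2 : ∑ a, lf c x j t a * (m • y) a = m * ∑ a, lf c x j t a * y a := by
      rw [Finset.mul_sum]
      refine Finset.sum_congr rfl fun a _ => ?_
      rw [Pi.smul_apply, smul_eq_mul]
      ring
    rw [h2, h1, mul_zero]

end

section

variable (K : Type) [Field K] [NumberField K]

/-- The subspace `V` of `K ^ N` of dimension `r` has a basis `w` of integral vectors in the box `W`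
which is `Δ` times the standard basis in some `r` coordinates, and all conjugates of `Δ` are at
least `κ W`. -/
def Frame (N r : ℕ) (V : Submodule K (Fin N → K)) (κ : ℝ) (W : ℕ) : Prop :=
  ∃ (w : Fin r → Fin N → K) (p : Fin r → Fin N) (Δ : K), (∀ i, w i ∈ V) ∧
    V ≤ Submodule.span K (Set.range w) ∧ (∀ i, w i ∈ bx K N W) ∧
    (∀ i i', w i (p i') = if i = i' then Δ else 0) ∧ ∀ φ : K →+* ℂ, κ * W ≤ ‖φ Δ‖

open Classical in
/-- The number of the integral points of `V` in the box `B`. -/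
noncomputable def nu (N : ℕ) (V : Submodule K (Fin N → K)) (B : ℕ) : ℕ :=
  ((bx K N B).filter fun x => x ∈ V).card

end

/-- LO-1: the number of the multiples of a vector in a box. -/
def S_REP : Prop :=
  ∀ (K : Type) [Field K] [NumberField K] (m : ℕ) (x : Fin m → K), x ≠ 0 → ∀ b : ℕ, 1 ≤ b →
    {t : K | t ≠ 0 ∧ t • x ∈ bx K m b}.Finite ∧
    (({t : K | t ≠ 0 ∧ t • x ∈ bx K m b}.ncard : ℕ) : ℝ) * Height.mulHeight x ≤
      3 ^ dg K * (b : ℝ) ^ dg K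

/-- LO-2: the height of a vector in a box. -/
def S_HB : Prop :=
  ∀ (K : Type) [Field K] [NumberField K] (m : ℕ) (x : Fin m → K), x ≠ 0 → ∀ b : ℕ,
    x ∈ bx K m b → Height.mulHeight x ≤ (b : ℝ) ^ dg K

/-- LO-3: many points in the fibres (pigeonhole principle). -/
def S_PIG : Prop :=
  ∀ (K : Type) [Field K] [NumberField K] (ι : Type) [Fintype ι] [DecidableEq ι] (n : ι → ℕ) (k : ℕ)
    (c : Fin k → Cof K n), (∀ t a, IsIntegral ℤ (c t a)) → ∃ c0 : ℝ, 0 < c0 ∧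
    ∀ (j : ι) (b : ι → ℕ) (x : Vs K n), k ≤ n j + 1 → (∀ l, 1 ≤ b l) →
      (∀ l, l ≠ j → x l ∈ bx K (n l + 1) (b l)) →
      c0 * (b j : ℝ) ^ (dg K * (n j + 1 - k)) ≤
        (∏ l ∈ univ.erase j, (b l : ℝ)) ^ (dg K * k) * (nu K (n j + 1) (VV c x j) (b j) : ℝ)

/-- LO-4: the number of points grows at least as the volume. -/
def S_REV : Prop :=
  ∀ (K : Type) [Field K] [NumberField K] (N r : ℕ) (κ : ℝ), 1 ≤ r → 0 < κ → ∃ C : ℝ, 0 ≤ C ∧
    ∀ (V : Submodule K (Fin N → K)) (W : ℕ), 1 ≤ W → Frame K N r V κ W → ∀ ρ B : ℕ, W ≤ ρ → ρ ≤ B →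
      (nu K N V ρ : ℝ) * (B : ℝ) ^ (dg K * r) ≤ C * (ρ : ℝ) ^ (dg K * r) * (nu K N V B : ℝ)

open Classical in
/-- LO-5: few points have small height. -/
def S_SMALL : Prop :=
  ∀ (K : Type) [Field K] [NumberField K] (N r : ℕ) (κ ε : ℝ), 2 ≤ r → 0 < κ → 0 < ε →
    ∃ η C : ℝ, 0 < η ∧ 0 < C ∧ ∀ (V : Submodule K (Fin N → K)) (W B : ℕ), 1 ≤ W →
      Frame K N r V κ W → C * (W : ℝ) ^ 2 ≤ B →
      ((((bx K N B).filter fun x => x ∈ V ∧ x ≠ 0 ∧
        Height.mulHeight x < (η * B) ^ dg K).card : ℕ) : ℝ) ≤ ε * (nu K N V B : ℝ)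

/-- LO-6: frames of the fibres (Cramer). -/
def S_FR : Prop :=
  ∀ (K : Type) [Field K] [NumberField K] (ι : Type) [Fintype ι] [DecidableEq ι] (n : ι → ℕ) (k : ℕ)
    (c : Fin k → Cof K n), (∀ t a, IsIntegral ℤ (c t a)) → ∀ κ : ℝ, 0 < κ →
    ∃ (κ' : ℝ) (C : ℕ), 0 < κ' ∧ 1 ≤ C ∧
    ∀ (j : ι) (J : Fin k → Fin (n j + 1)) (b : ι → ℕ) (x : Vs K n), (∀ l, 1 ≤ b l) →
      (∀ l, l ≠ j → x l ∈ bx K (n l + 1) (b l)) →
      (∀ φ : K →+* ℂ, κ * (∏ l ∈ univ.erase j, (b l : ℝ)) ^ k ≤ ‖φ (mnr c x j J)‖) →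
      Frame K (n j + 1) (n j + 1 - k) (VV c x j) κ' (C * (∏ l ∈ univ.erase j, b l) ^ k)

open Classical in
/-- LO-7: many regular families of vectors. -/
def S_REG : Prop :=
  ∀ (K : Type) [Field K] [NumberField K] (ι : Type) [Fintype ι] [DecidableEq ι] (n : ι → ℕ) (k : ℕ)
    (c : Fin k → Cof K n) (j : ι) (g : Pol K n) (J : Fin k → Fin (n j + 1)),
    (∃ x : Vs (AlgebraicClosure K) n, (∀ t, ev (AlgebraicClosure K) (c t) x = 0) ∧
      pv (AlgebraicClosure K) g x ≠ 0 ∧ mnr c x j J ≠ 0) →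
    ∃ (κ c0 : ℝ) (B0 : ℕ), 0 < κ ∧ 0 < c0 ∧ ∀ b : ι → ℕ, (∀ l, B0 ≤ b l) →
      c0 * ∏ l ∈ univ.erase j, (b l : ℝ) ^ (dg K * (n l + 1)) ≤
        ((((Fintype.piFinset fun l => if l = j then {0} else bx K (n l + 1) (b l)).filter
          fun x : Vs K n => (∀ φ : K →+* ℂ,
            κ * (∏ l ∈ univ.erase j, (b l : ℝ)) ^ k ≤ ‖φ (mnr c x j J)‖) ∧
            ∃ y ∈ VV c x j, pv K g (update x j y) ≠ 0).card : ℕ) : ℝ)

open Classical in
/-- LO-8: few points in the fibres on a hypersurface. -/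
def S_SZ : Prop :=
  ∀ (K : Type) [Field K] [NumberField K] (ι : Type) [Fintype ι] [DecidableEq ι] (n : ι → ℕ) (k : ℕ)
    (c : Fin k → Cof K n) (g : Pol K n), ∃ C : ℝ, 0 ≤ C ∧
    ∀ (j : ι) (J : Fin k → Fin (n j + 1)) (x : Vs K n), k + 1 ≤ n j + 1 → mnr c x j J ≠ 0 →
      (∃ y ∈ VV c x j, pv K g (update x j y) ≠ 0) → ∀ B : ℕ, 1 ≤ B →
      ((((bx K (n j + 1) B).filter fun y => y ∈ VV c x j ∧ pv K g (update x j y) = 0).card : ℕ) :
        ℝ) ≤ C * (B : ℝ) ^ (dg K * (n j - k))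

/-- LO-9: the number of points at one scale. -/
def S_SC : Prop :=
  ∀ (K : Type) [Field K] [NumberField K] (ι : Type) [Fintype ι] [DecidableEq ι] (n : ι → ℕ) (k : ℕ)
    (c : Fin k → Cof K n) (j : ι) (g : Pol K n) (J : Fin k → Fin (n j + 1)),
    (∀ t a, IsIntegral ℤ (c t a)) → 2 ≤ Fintype.card ι → 1 ≤ k → (∀ i, k + 1 ≤ n i) → MH g →
    (∃ x : Vs (AlgebraicClosure K) n, (∀ t, ev (AlgebraicClosure K) (c t) x = 0) ∧
      pv (AlgebraicClosure K) g x ≠ 0 ∧ mnr c x j J ≠ 0) →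
    ∃ (η c0 C : ℝ) (A B0 : ℕ), 0 < η ∧ 0 < c0 ∧ ∀ b : ι → ℕ, (∀ l, B0 ≤ b l) → (∀ l, 1 ≤ b l) →
      C * (∏ l ∈ univ.erase j, (b l : ℝ)) ^ A ≤ b j →
      ∃ S : Finset (Pts K n), (∀ x ∈ S, (∀ t, ev K (c t) (fun i => (x i).rep) = 0) ∧
        pv K g (fun i => (x i).rep) ≠ 0 ∧ ∀ l, (η * b l) ^ dg K ≤ (x l).mulHeight ∧
          (x l).mulHeight ≤ (b l : ℝ) ^ dg K) ∧
        c0 * ∏ l, (b l : ℝ) ^ (dg K * (n l + 1 - k)) ≤ (S.card : ℝ)

/-- LO-10: from the scales to the number of points of bounded height (abstract). -/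
def S_SUM : Prop :=
  ∀ (ι : Type) [Fintype ι] [DecidableEq ι] (X : Type) (H : ι → X → ℝ) (P : X → Prop) (r : ι → ℕ)
    (d : ℕ) (j : ι) (η c0 C : ℝ) (A B0 : ℕ), 2 ≤ Fintype.card ι → (∀ l, 1 ≤ r l) → 1 ≤ d → 0 < η →
    0 < c0 → (∀ l x, 1 ≤ H l x) → (∀ B : ℝ, {x | P x ∧ ∏ l, H l x ^ r l ≤ B}.Finite) →
    (∀ b : ι → ℕ, (∀ l, B0 ≤ b l) → (∀ l, 1 ≤ b l) →
      C * (∏ l ∈ univ.erase j, (b l : ℝ)) ^ A ≤ b j →
      ∃ S : Finset X, (∀ x ∈ S, P x ∧ ∀ l, (η * b l) ^ d ≤ H l x ∧ H l x ≤ (b l : ℝ) ^ d) ∧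
        c0 * ∏ l, (b l : ℝ) ^ (d * r l) ≤ (S.card : ℝ)) →
    ∃ c1 B1 : ℝ, 0 < c1 ∧ ∀ B : ℝ, B1 ≤ B →
      c1 * B * Real.log B ^ (Fintype.card ι - 1) ≤
        (({x | P x ∧ ∏ l, H l x ^ r l ≤ B}.ncard : ℕ) : ℝ)

/-- LO-11: finiteness. -/
def S_NO : Prop :=
  ∀ (K : Type) [Field K] [NumberField K] (ι : Type) [Fintype ι] [DecidableEq ι] (n r : ι → ℕ),
    (∀ l, 1 ≤ r l) → ∀ B : ℝ, {x : Pts K n | ∏ l, (x l).mulHeight ^ r l ≤ B}.Finite

end Pool.Agent.Q35.LO
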