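import Mathlib
import Pool.Agent.Q35.LO.Stm
import Pool.Agent.Q35.SM.Main
import Pool.Agent.Q298.SM.T1

set_option autoImplicit false

namespace Pool.Agent.Q35.LO

open Finset Function MvPolynomial
open Pool.Agent.Q35.MM (bx dg Pts fuj)
open Pool.Agent.Q35.SM (Cof Vs Var Pol ev pv MH)

section

variable {K : Type} [Field K] {ι : Type} [Fintype ι] [DecidableEq ι] {n : ι → ℕ}

theorem ev_mul {A : Type} [CommRing A] [Algebra K A] (m : K) (c : Cof K n) (x : Vs A n) :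
    ev A (fun a => m * c a) x = algebraMap K A m * ev A c x := by
  unfold ev
  rw [Finset.mul_sum]
  refine Finset.sum_congr rfl fun a _ => ?_
  rw [map_mul, mul_assoc]

end

/-- The lower bound from the lemmas. -/
theorem low (hSC : S_SC) (hSUM : S_SUM) (hNO : S_NO) (K : Type) [Field K] [NumberField K] (ι : Type)
    [Fintype ι] [DecidableEq ι] (hι : 2 ≤ Fintype.card ι) (n : ι → ℕ) (k : ℕ) (hk : 1 ≤ k)
    (hn : ∀ i, k + 1 ≤ n i) (c : Fin k → Cof K n) (g : Pol K n) (hg : MH g)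
    (hx : ∃ x : Vs (AlgebraicClosure K) n, (∀ t, ev (AlgebraicClosure K) (c t) x = 0) ∧
      pv (AlgebraicClosure K) g x ≠ 0 ∧ ∃ j, LinearIndependent (AlgebraicClosure K)
        fun (t : Fin k) (a : Fin (n j + 1)) =>
          ev (AlgebraicClosure K) (c t) (update x j (Pi.single a 1))) :
    (∀ B : ℝ, {x : Pts K n | ((∀ t, ev K (c t) (fun i => (x i).rep) = 0) ∧
          pv K g (fun i => (x i).rep) ≠ 0) ∧ ∏ i, (x i).mulHeight ^ (n i + 1 - k) ≤ B}.Finite) ∧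
    ∃ c1 B1 : ℝ, 0 < c1 ∧ ∀ B : ℝ, B1 ≤ B → c1 * B * Real.log B ^ (Fintype.card ι - 1) ≤
      (({x : Pts K n | ((∀ t, ev K (c t) (fun i => (x i).rep) = 0) ∧
          pv K g (fun i => (x i).rep) ≠ 0) ∧
          ∏ i, (x i).mulHeight ^ (n i + 1 - k) ≤ B}.ncard : ℕ) : ℝ) := by
  classical
  have hfin : ∀ B : ℝ, {x : Pts K n | ((∀ t, ev K (c t) (fun i => (x i).rep) = 0) ∧
          pv K g (fun i => (x i).rep) ≠ 0) ∧ ∏ i, (x i).mulHeight ^ (n i + 1 - k) ≤ B}.Finite := by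
    intro B
    refine (hNO K ι n (fun i => n i + 1 - k) (fun l => ?_) B).subset ?_
    · have := hn l
      omega
    · rintro x ⟨-, hx⟩
      exact hx
  refine ⟨hfin, ?_⟩
  obtain ⟨x0, hx1, hx2, j, hx3⟩ := hx
  -- integral coefficients
  obtain ⟨m0, hm0, hint⟩ := exists_integral_multiples ℤ ℚ (L := K)
    (univ.biUnion fun t : Fin k => univ.image fun a : ∀ i, Fin (n i + 1) => c t a)
  have hm0K : (m0 : K) ≠ 0 := by exact_mod_cast hm0
  set c' : Fin k → Cof K n := fun t a => (m0 : K) * c t a with hc'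
  have hint' : ∀ t a, IsIntegral ℤ (c' t a) := by
    intro t a
    have h := hint (c t a) (by
      rw [mem_biUnion]
      exact ⟨t, mem_univ _, mem_image_of_mem _ (mem_univ a)⟩)
    rwa [zsmul_eq_mul] at h
  have hev : ∀ (A : Type) [CommRing A] [Algebra K A] (t : Fin k) (x : Vs A n),
      ev A (c' t) x = algebraMap K A (m0 : K) * ev A (c t) x := by
    intro A _ _ t x
    rw [hc']
    exact ev_mul _ _ _
  have hm0A : algebraMap K (AlgebraicClosure K) (m0 : K) ≠ 0 := by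
    rw [Ne, map_eq_zero]
    exact hm0K
  -- the minor
  obtain ⟨J, hJ⟩ : ∃ J : Fin k → Fin (n j + 1), mnr c' x0 j J ≠ 0 := by
    have h1 : LinearIndependent (AlgebraicClosure K) (fun t => lf c' x0 j t) := by
      have h2 := hx3.units_smul (fun _ => Units.mk0 _ hm0A)
      convert h2 using 1
      funext t a
      simp only [lf, Pi.smul_apply']
      rw [hev]
      rfl
    obtain ⟨J, hJ⟩ := Pool.Agent.Q298.SM.exists_minor (Matrix.of (lf c' x0 j)) h1
    exact ⟨J, hJ⟩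
  obtain ⟨η, c0, C, A, B0, hη, hc0, hS⟩ := hSC K ι n k c' j g J hint' hι hk hn hg
    ⟨x0, fun t => by rw [hev, hx1 t, mul_zero], hx2, hJ⟩
  obtain ⟨c1, B1, hc1, h⟩ := hSUM ι (Pts K n) (fun l x => (x l).mulHeight)
    (fun x => (∀ t, ev K (c t) (fun i => (x i).rep) = 0) ∧ pv K g (fun i => (x i).rep) ≠ 0)
    (fun i => n i + 1 - k) (dg K) j η c0 C A B0 hι (fun l => by have := hn l; omega)
    Module.finrank_pos hη hc0 (fun l x => (x l).one_le_mulHeight) hfin (by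
      intro b hb0 hb1 hb
      obtain ⟨S, hS1, hS2⟩ := hS b hb0 hb1 hb
      refine ⟨S, fun x hx => ?_, hS2⟩
      obtain ⟨h1, h2, h3⟩ := hS1 x hx
      refine ⟨⟨fun t => ?_, h2⟩, h3⟩
      have h4 := h1 t
      rw [hev] at h4
      exact (mul_eq_zero.mp h4).resolve_left (by simpa using hm0K))
  exact ⟨c1, B1, hc1, h⟩

theorem fuj_one {ι : Type} (hι : Nonempty ι) (n : ι → ℕ) (k : ℕ) (hk : ∀ i, k ≤ n i) :
    fuj n k (fun i => ((n i + 1 - k : ℕ) : ℝ)) = 1 := by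
  unfold fuj
  have h1 : ∀ i, ((n i + 1 - k : ℕ) : ℝ) = (n i : ℝ) + 1 - k := by
    intro i
    have := hk i
    rw [Nat.cast_sub (by omega)]
    push_cast
    ring
  have h2 : ∀ i, (0 : ℝ) < (n i : ℝ) + 1 - k := by
    intro i
    have : (k : ℝ) ≤ n i := by exact_mod_cast hk i
    linarith
  have h3 : {s : ℝ | ∀ i, 0 ≤ s * ((n i + 1 - k : ℕ) : ℝ) - ((n i : ℝ) + 1 - k)} = Set.Ici 1 := by
    ext s
    simp only [Set.mem_setOf_eq, Set.mem_Ici]
    constructor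
    · intro h
      obtain ⟨i⟩ := hι
      have h4 := h i
      rw [h1 i] at h4
      have h5 := h2 i
      by_contra hs
      push Not at hs
      nlinarith
    · intro h i
      rw [h1 i]
      have h5 := h2 i
      nlinarith
  rw [h3, csInf_Ici]

/-- The smooth case from the lemmas. -/
theorem both (hAD : Pool.Agent.Q35.MM.S_AD) (hT : Pool.Agent.Q35.SM.S_T)
    (hD : Pool.Agent.Q35.SM.S_D) (hE : Pool.Agent.Q35.SM.S_E) (hF : Pool.Agent.Q35.SM.S_F)
    (hN : Pool.Agent.Q35.SM.S_N) (hG : Pool.Agent.Q35.SM.S_G) (hH : Pool.Agent.Q35.SM.S_H)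
    (hSC : S_SC) (hSUM : S_SUM) (hNO : S_NO) (K : Type) [Field K] [NumberField K] (ι : Type)
    [Fintype ι] [DecidableEq ι] (hι : 2 ≤ Fintype.card ι) (n : ι → ℕ) (k : ℕ) (hk : 1 ≤ k)
    (hn : ∀ i, (k * Fintype.card ι - 1) * (Fintype.card ι - 1) + k ≤ n i + 1)
    (hn1 : ∀ i, k + 1 ≤ n i)
    (c : Fin k → Cof K n) (hc : Pool.Agent.Q35.SM.Smth c) :
    ∃ g : Pol K n, MH g ∧
      (∃ x : Pts K n, (∀ t, ev K (c t) (fun i => (x i).rep) = 0) ∧
        pv K g (fun i => (x i).rep) ≠ 0) ∧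
      (∀ ε : ℝ, 0 < ε → ∃ C : ℝ, ∀ B : ℝ, 1 ≤ B →
        (({x : Pts K n | ((∀ t, ev K (c t) (fun i => (x i).rep) = 0) ∧
          pv K g (fun i => (x i).rep) ≠ 0) ∧
          ∏ i, (x i).mulHeight ^ (n i + 1 - k) ≤ B}.ncard : ℕ) : ℝ) ≤ C * B ^ (1 + ε)) ∧
      ∀ h : Pol K n, MH h →
        (∃ x : Vs (AlgebraicClosure K) n, (∀ t, ev (AlgebraicClosure K) (c t) x = 0) ∧
          pv (AlgebraicClosure K) (g * h) x ≠ 0) →
        ∃ c1 B1 : ℝ, 0 < c1 ∧ ∀ B : ℝ, B1 ≤ B → c1 * B * Real.log B ^ (Fintype.card ι - 1) ≤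
          (({x : Pts K n | ((∀ t, ev K (c t) (fun i => (x i).rep) = 0) ∧
            pv K (g * h) (fun i => (x i).rep) ≠ 0) ∧
            ∏ i, (x i).mulHeight ^ (n i + 1 - k) ≤ B}.ncard : ℕ) : ℝ) := by
  classical
  obtain ⟨g, hg, hind, hpt, hup⟩ :=
    Pool.Agent.Q35.SM.main2 hAD hT hD hE hF hN hG hH K ι hι n k hk hn c hc
  have hne : Nonempty ι := by
    rw [← Fintype.card_pos_iff]
    omega
  have hkn : ∀ i, k ≤ n i := fun i => by
    have := hn1 i
    omega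
  refine ⟨g, hg, hpt, fun ε hε => ?_, fun h hh hx => ?_⟩
  · obtain ⟨C, hC⟩ := hup (fun i => ((n i + 1 - k : ℕ) : ℝ)) (fun i => by
      have := hkn i
      exact_mod_cast (by omega : 0 < n i + 1 - k)) ε hε
    refine ⟨C, fun B hB => ?_⟩
    have h1 := (hC B hB).2
    rw [fuj_one hne n k hkn] at h1
    simpa only [Real.rpow_natCast] using h1
  · obtain ⟨x, hx1, hx2⟩ := hx
    have hx3 : pv (AlgebraicClosure K) g x ≠ 0 := by
      intro h0
      apply hx2
      unfold pv at h0 ⊢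
      rw [map_mul, h0, zero_mul]
    obtain ⟨j⟩ := hne
    exact (low hSC hSUM hNO K ι hι n k hk hn1 c (g * h) (Pool.Agent.Q35.SM.MH_mul hg hh)
      ⟨x, hx1, hx2, j, hind _ x hx3 j⟩).2

end Pool.Agent.Q35.LO
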